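import Pool.Agent.N798.S.Stm

/-!
Project S (helper798), task BL: exponential sums over `τ log x + ∑ g_i x^(-i-1)`.
Lean proof: helper768.
-/

set_option autoImplicit false

namespace Pool.Agent.N768.S

open Finset
open Pool.Agent.N798.S
open Pool.Agent.H376R2.MR (er)

/-- derivatives of the logarithm -/
noncomputable def aa : ℕ → ℝ → ℝ
  | 0, x => Real.log x
  | (m + 1), x => (-1) ^ m * (m.factorial : ℝ) * (1 / x ^ (m + 1))

/-- derivatives of `x ^ (-i-1)` -/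
noncomputable def bb (m i : ℕ) (x : ℝ) : ℝ :=
  (-1) ^ m * ((i + 1).ascFactorial m : ℝ) * (1 / x ^ (i + 1 + m))

theorem hasDerivAt_inv_pow (k : ℕ) {x : ℝ} (hx : x ≠ 0) :
    HasDerivAt (fun x : ℝ => 1 / x ^ k) (-(k : ℝ) * (1 / x ^ (k + 1))) x := by
  have h := (hasDerivAt_pow k x).fun_inv (pow_ne_zero _ hx)
  simp only [one_div]
  refine h.congr_deriv ?_
  rcases k with _ | k
  · simp
  · rw [Nat.add_sub_cancel]
    field_simp
    ring

theorem hasDerivAt_aa (m : ℕ) {x : ℝ} (hx : x ≠ 0) : HasDerivAt (aa m) (aa (m + 1) x) x := by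
  rcases m with _ | m
  · have h := Real.hasDerivAt_log hx
    have h2 : aa (0 + 1) x = x⁻¹ := by simp [aa]
    rw [h2]
    exact h
  · have h := (hasDerivAt_inv_pow (m + 1) hx).const_mul ((-1) ^ m * (m.factorial : ℝ))
    refine HasDerivAt.congr_deriv (f := aa (m + 1)) h ?_
    show _ = (-1) ^ (m + 1) * ((m + 1).factorial : ℝ) * (1 / x ^ (m + 1 + 1))
    rw [Nat.factorial_succ]
    push_cast
    ring

theorem hasDerivAt_bb (m i : ℕ) {x : ℝ} (hx : x ≠ 0) :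
    HasDerivAt (bb m i) (bb (m + 1) i x) x := by
  have h := (hasDerivAt_inv_pow (i + 1 + m) hx).const_mul
    ((-1) ^ m * ((i + 1).ascFactorial m : ℝ))
  refine HasDerivAt.congr_deriv (f := bb m i) h ?_
  show _ = (-1) ^ (m + 1) * ((i + 1).ascFactorial (m + 1) : ℝ) * (1 / x ^ (i + 1 + (m + 1)))
  rw [Nat.ascFactorial_succ]
  push_cast
  rw [← add_assoc]
  ring

/-- the derivatives of the phase -/
noncomputable def ff {J : ℕ} (τ : ℝ) (g : Fin J → ℝ) (m : ℕ) (x : ℝ) : ℝ :=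
  τ * aa m x + ∑ i : Fin J, g i * bb m i x

theorem hasDerivAt_ff {J : ℕ} (τ : ℝ) (g : Fin J → ℝ) (m : ℕ) {x : ℝ} (hx : x ≠ 0) :
    HasDerivAt (ff τ g m) (ff τ g (m + 1) x) x :=
  ((hasDerivAt_aa m hx).const_mul τ).add
    (HasDerivAt.fun_sum fun i _ => (hasDerivAt_bb m i hx).const_mul (g i))

theorem ff_zero {J : ℕ} (τ : ℝ) (g : Fin J → ℝ) (x : ℝ) :
    ff τ g 0 x = τ * Real.log x + ∑ i : Fin J, g i / x ^ ((i : ℕ) + 1) := by
  unfold ff aa bb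
  simp [div_eq_mul_inv]

/-- the coefficients of the polynomials -/
noncomputable def co {J : ℕ} (τ : ℝ) (g : Fin J → ℝ) (N m : ℕ) : Fin (J + 1) → ℝ :=
  Fin.cons ((-1) ^ m * (m.factorial : ℝ) * τ)
    (fun i : Fin J => (-1) ^ (m + 1) * (((i : ℕ) + 1).ascFactorial (m + 1) : ℝ) *
      (g i / (N : ℝ) ^ ((i : ℕ) + 1)))

theorem ff_eq {J : ℕ} (τ : ℝ) (g : Fin J → ℝ) (N m : ℕ) (hN : 1 ≤ N) {x : ℝ} (hx : x ≠ 0) :
    (N : ℝ) ^ (m + 1) * ff τ g (m + 1) x =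
      (N / x) ^ (m + 1) * ∑ i : Fin (J + 1), co τ g N m i * (N / x) ^ (i : ℕ) := by
  have hN0 : (N : ℝ) ≠ 0 := by
    have : (1 : ℝ) ≤ N := by exact_mod_cast hN
    positivity
  rw [Fin.sum_univ_succ]
  unfold ff co aa bb
  simp only [Fin.cons_zero, Fin.cons_succ, Fin.val_zero, Fin.val_succ]
  rw [mul_add, mul_add, Finset.mul_sum, Finset.mul_sum]
  congr 1
  · rw [div_pow]
    ring
  · refine Finset.sum_congr rfl fun i _ => ?_
    have h1 : (N : ℝ) ^ ((i : ℕ) + 1) ≠ 0 := pow_ne_zero _ hN0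
    rw [div_pow, div_pow, show (i : ℕ) + 1 + (m + 1) = (m + 1) + ((i : ℕ) + 1) from by ring,
      pow_add x]
    field_simp

theorem co_lower {J : ℕ} (τ : ℝ) (g : Fin J → ℝ) (N m : ℕ) (Φ : ℝ)
    (h : Φ ≤ |τ| ∨ ∃ i, Φ ≤ |g i| / (N : ℝ) ^ ((i : ℕ) + 1)) : ∃ i, Φ ≤ |co τ g N m i| := by
  rcases h with h | ⟨i, h⟩
  · refine ⟨0, ?_⟩
    unfold co
    rw [Fin.cons_zero, abs_mul, abs_mul, abs_pow, abs_neg, abs_one, one_pow, one_mul, Nat.abs_cast]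
    have h1 : (1 : ℝ) ≤ m.factorial := by exact_mod_cast m.factorial_pos
    nlinarith [abs_nonneg τ]
  · refine ⟨i.succ, ?_⟩
    unfold co
    rw [Fin.cons_succ, abs_mul, abs_mul, abs_pow, abs_neg, abs_one, one_pow, one_mul, Nat.abs_cast,
      abs_div, abs_pow, Nat.abs_cast]
    have h1 : (1 : ℝ) ≤ (((i : ℕ) + 1).ascFactorial (m + 1) : ℝ) := by
      exact_mod_cast Nat.ascFactorial_pos _ _
    have h2 : 0 ≤ |g i| / (N : ℝ) ^ ((i : ℕ) + 1) := by positivity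
    nlinarith

theorem co_upper {J : ℕ} (τ : ℝ) (g : Fin J → ℝ) (N m : ℕ) (Φ : ℝ) (hτ : |τ| ≤ Φ)
    (hg : ∀ i, |g i| / (N : ℝ) ^ ((i : ℕ) + 1) ≤ Φ) (i : Fin (J + 1)) :
    |co τ g N m i| ≤ ((J + m + 1).factorial : ℝ) * Φ := by
  have hΦ : 0 ≤ Φ := (abs_nonneg τ).trans hτ
  refine Fin.cases ?_ (fun i => ?_) i
  · unfold co
    rw [Fin.cons_zero, abs_mul, abs_mul, abs_pow, abs_neg, abs_one, one_pow, one_mul, Nat.abs_cast]
    have h1 : (m.factorial : ℝ) ≤ (J + m + 1).factorial := by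
      exact_mod_cast Nat.factorial_le (by omega)
    exact mul_le_mul h1 hτ (abs_nonneg _) (by positivity)
  · unfold co
    rw [Fin.cons_succ, abs_mul, abs_mul, abs_pow, abs_neg, abs_one, one_pow, one_mul, Nat.abs_cast,
      abs_div, abs_pow, Nat.abs_cast]
    have h1 : (((i : ℕ) + 1).ascFactorial (m + 1) : ℝ) ≤ (J + m + 1).factorial := by
      have h2 := Nat.factorial_mul_ascFactorial (i : ℕ) (m + 1)
      have h3 : ((i : ℕ) + (m + 1)).factorial ≤ (J + m + 1).factorial :=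
        Nat.factorial_le (by have := i.2; omega)
      have h4 : 1 ≤ (i : ℕ).factorial := (i : ℕ).factorial_pos
      have h5 : ((i : ℕ) + 1).ascFactorial (m + 1) ≤ (J + m + 1).factorial :=
        (Nat.le_mul_of_pos_left _ h4).trans (h2.le.trans h3)
      exact_mod_cast h5
    exact mul_le_mul h1 (hg i) (by positivity) (by positivity)

theorem exists_sign {G : ℝ → ℝ} {a b : ℝ} (hab : a ≤ b) (hc : ContinuousOn G (Set.Icc a b))
    (h0 : ∀ x ∈ Set.Icc a b, G x ≠ 0) :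
    ∃ σ : ℝ, |σ| = 1 ∧ ∀ x ∈ Set.Icc a b, σ * G x = |G x| := by
  have key : ∀ H : ℝ → ℝ, ContinuousOn H (Set.Icc a b) → (∀ x ∈ Set.Icc a b, H x ≠ 0) → 0 < H a →
      ∀ x ∈ Set.Icc a b, 0 < H x := by
    intro H hH hH0 hHa x hx
    by_contra hcon
    push Not at hcon
    obtain ⟨z, hz, hz0⟩ := intermediate_value_Icc' hx.1
      (hH.mono (Set.Icc_subset_Icc_right hx.2)) ⟨hcon, hHa.le⟩
    exact hH0 z ⟨hz.1, hz.2.trans hx.2⟩ hz0
  rcases lt_or_gt_of_ne (h0 a ⟨le_refl _, hab⟩) with h | h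
  · refine ⟨-1, by simp, fun x hx => ?_⟩
    have h1 := key (fun x => -G x) hc.neg (fun x hx => neg_ne_zero.2 (h0 x hx)) (neg_pos.2 h) x hx
    rw [abs_of_neg (neg_pos.1 h1)]
    ring
  · refine ⟨1, by simp, fun x hx => ?_⟩
    rw [abs_of_pos (key G hc h0 h x hx), one_mul]

/-- avoidance of the points -/
theorem avoid {N : ℕ} (hN : 1 ≤ N) {ρ x r : ℝ} (hρ : 0 < ρ) (hρ1 : ρ ≤ 1 / 4) (hx1 : (N : ℝ) ≤ x)
    (hx2 : x ≤ 2 * N) (h : 8 * ρ * N ≤ |x - N / r|) : ρ ≤ |N / x - r| := by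
  have hN1 : (1 : ℝ) ≤ N := by exact_mod_cast hN
  have hx0 : 0 < x := by linarith
  have hy : 1 / 2 ≤ N / x := by
    rw [div_le_div_iff₀ (by norm_num) hx0]
    linarith
  rcases lt_or_ge r (1 / 4) with hr | hr
  · rw [abs_of_nonneg (by linarith)]
    linarith
  · have hr0 : 0 < r := by linarith
    have h1 : N / x - r = -(r * (x - N / r) / x) := by
      field_simp
      ring
    rw [h1, abs_neg, abs_div, abs_mul, abs_of_pos hr0, abs_of_pos hx0, le_div_iff₀ hx0]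
    have h2 : (1 / 4) * (8 * ρ * N) ≤ r * |x - N / r| :=
      mul_le_mul hr h (by positivity) hr0.le
    nlinarith

theorem piece_hyp {J : ℕ} (q N : ℕ) (τ Φ c ρ : ℝ) (g : Fin J → ℝ) (hN : 1 ≤ N) (hΦ : 0 < Φ)
    (hτ : |τ| ≤ Φ) (hg : ∀ i, |g i| / (N : ℝ) ^ ((i : ℕ) + 1) ≤ Φ) (hc : 0 < c) (hρ : 0 < ρ)
    (hρ1 : ρ ≤ 1 / 4) (s1 s2 : Finset ℝ)
    (h1 : ∀ y ∈ Set.Icc (1 / 2 : ℝ) 1, (∀ r ∈ s1, ρ ≤ |y - r|) →
      c * ρ ^ J * Φ ≤ |∑ i : Fin (J + 1), co τ g N q i * y ^ (i : ℕ)|)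
    (h2 : ∀ y ∈ Set.Icc (1 / 2 : ℝ) 1, (∀ r ∈ s2, ρ ≤ |y - r|) →
      c * ρ ^ J * Φ ≤ |∑ i : Fin (J + 1), co τ g N (q + 1) i * y ^ (i : ℕ)|)
    (a b : ℝ) (ha : (N : ℝ) ≤ a) (hab : a ≤ b) (hb : b ≤ 2 * N)
    (hav : ∀ x ∈ Set.Icc a b, ∀ r ∈ s1 ∪ s2, 8 * ρ * N ≤ |x - N / r|) :
    ∃ σ1 σ2 : ℝ, |σ1| = 1 ∧ |σ2| = 1 ∧ ∀ x ∈ Set.Icc a b,
      c / 2 ^ (q + 1) * ρ ^ J ≤ σ1 * (ff τ g (q + 1) x / Φ) * (N : ℝ) ^ (q + 1) ∧
      σ1 * (ff τ g (q + 1) x / Φ) * (N : ℝ) ^ (q + 1) ≤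
        ((J : ℝ) + 1) * ((J + q + 1).factorial : ℝ) ∧
      0 ≤ σ2 * (ff τ g (q + 2) x / Φ) := by
  have hN1 : (1 : ℝ) ≤ N := by exact_mod_cast hN
  have hN0 : (0 : ℝ) < N := by linarith
  have hxne : ∀ x ∈ Set.Icc a b, x ≠ 0 := by
    intro x hx
    have := hx.1
    intro h0
    linarith
  have hy : ∀ x ∈ Set.Icc a b, N / x ∈ Set.Icc (1 / 2 : ℝ) 1 := by
    intro x hx
    have hx0 : 0 < x := by linarith [hx.1]
    constructor
    · rw [div_le_div_iff₀ (by norm_num) hx0]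
      linarith [hx.2]
    · rw [div_le_one hx0]
      linarith [hx.1]
  have hav' : ∀ x ∈ Set.Icc a b, ∀ r ∈ s1 ∪ s2, ρ ≤ |N / x - r| := fun x hx r hr =>
    avoid hN hρ hρ1 (ha.trans hx.1) (hx.2.trans hb) (hav x hx r hr)
  have hlow : ∀ x ∈ Set.Icc a b, c / 2 ^ (q + 1) * ρ ^ J * Φ ≤
      (N : ℝ) ^ (q + 1) * |ff τ g (q + 1) x| := by
    intro x hx
    have h3 := h1 _ (hy x hx) (fun r hr => hav' x hx r (mem_union_left _ hr))
    have h4 : (N : ℝ) ^ (q + 1) * |ff τ g (q + 1) x| =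
        (N / x) ^ (q + 1) * |∑ i : Fin (J + 1), co τ g N q i * (N / x) ^ (i : ℕ)| := by
      have h5 := congrArg abs (ff_eq τ g N q hN (hxne x hx))
      rw [abs_mul, abs_mul, abs_pow, Nat.abs_cast, abs_pow,
        abs_of_nonneg (le_trans (by norm_num) (hy x hx).1 : (0 : ℝ) ≤ N / x)] at h5
      exact h5
    rw [h4]
    have h6 : (1 / 2 : ℝ) ^ (q + 1) ≤ (N / x) ^ (q + 1) :=
      pow_le_pow_left₀ (by norm_num) (hy x hx).1 _
    have h7 : c / 2 ^ (q + 1) * ρ ^ J * Φ = (1 / 2 : ℝ) ^ (q + 1) * (c * ρ ^ J * Φ) := by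
      rw [div_pow, one_pow]; ring
    rw [h7]
    exact mul_le_mul h6 h3 (by positivity) (by have := (hy x hx).1; positivity)
  have hlow2 : ∀ x ∈ Set.Icc a b, ff τ g (q + 2) x ≠ 0 := by
    intro x hx h0
    have h3 := h2 _ (hy x hx) (fun r hr => hav' x hx r (mem_union_right _ hr))
    have h5 := ff_eq τ g N (q + 1) hN (hxne x hx)
    rw [show q + 1 + 1 = q + 2 from rfl, h0, mul_zero] at h5
    have h6 : (N / x) ^ (q + 2) ≠ 0 := by
      have := (hy x hx).1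
      positivity
    rw [(mul_eq_zero.1 h5.symm).resolve_left h6, abs_zero] at h3
    have h7 : 0 < c * ρ ^ J * Φ := by positivity
    linarith
  have hlow1 : ∀ x ∈ Set.Icc a b, ff τ g (q + 1) x ≠ 0 := by
    intro x hx h0
    have h3 := hlow x hx
    rw [h0, abs_zero, mul_zero] at h3
    have h7 : 0 < c / 2 ^ (q + 1) * ρ ^ J * Φ := by positivity
    linarith
  have hup : ∀ x ∈ Set.Icc a b, (N : ℝ) ^ (q + 1) * |ff τ g (q + 1) x| ≤
      ((J : ℝ) + 1) * ((J + q + 1).factorial : ℝ) * Φ := by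
    intro x hx
    have h4 : (N : ℝ) ^ (q + 1) * |ff τ g (q + 1) x| =
        (N / x) ^ (q + 1) * |∑ i : Fin (J + 1), co τ g N q i * (N / x) ^ (i : ℕ)| := by
      have h5 := congrArg abs (ff_eq τ g N q hN (hxne x hx))
      rw [abs_mul, abs_mul, abs_pow, Nat.abs_cast, abs_pow,
        abs_of_nonneg (le_trans (by norm_num) (hy x hx).1 : (0 : ℝ) ≤ N / x)] at h5
      exact h5
    rw [h4]
    have hy0 : (0 : ℝ) ≤ N / x := le_trans (by norm_num) (hy x hx).1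
    have h6 : (N / x) ^ (q + 1) ≤ 1 := pow_le_one₀ hy0 (hy x hx).2
    have h7 : |∑ i : Fin (J + 1), co τ g N q i * (N / x) ^ (i : ℕ)| ≤
        ∑ _i : Fin (J + 1), ((J + q + 1).factorial : ℝ) * Φ := by
      refine (Finset.abs_sum_le_sum_abs _ _).trans (Finset.sum_le_sum fun i _ => ?_)
      rw [abs_mul, abs_pow, abs_of_nonneg hy0]
      have h8 : (N / x) ^ (i : ℕ) ≤ 1 := pow_le_one₀ hy0 (hy x hx).2
      calc |co τ g N q i| * (N / x) ^ (i : ℕ) ≤ |co τ g N q i| * 1 :=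
            mul_le_mul_of_nonneg_left h8 (abs_nonneg _)
        _ ≤ _ := by rw [mul_one]; exact co_upper τ g N q Φ hτ hg i
    rw [Finset.sum_const, Finset.card_univ, Fintype.card_fin, nsmul_eq_mul] at h7
    push_cast at h7
    calc (N / x) ^ (q + 1) * |∑ i : Fin (J + 1), co τ g N q i * (N / x) ^ (i : ℕ)| ≤
        1 * |∑ i : Fin (J + 1), co τ g N q i * (N / x) ^ (i : ℕ)| :=
          mul_le_mul_of_nonneg_right h6 (abs_nonneg _)
      _ ≤ _ := by rw [one_mul, mul_assoc]; exact h7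
  have hcont : ∀ m, ContinuousOn (ff τ g m) (Set.Icc a b) := by
    intro m x hx
    exact (hasDerivAt_ff τ g m (hxne x hx)).continuousAt.continuousWithinAt
  obtain ⟨σ1, hσ1, hs1⟩ := exists_sign hab (hcont (q + 1)) hlow1
  obtain ⟨σ2, hσ2, hs2⟩ := exists_sign hab (hcont (q + 2)) hlow2
  refine ⟨σ1, σ2, hσ1, hσ2, fun x hx => ?_⟩
  have h3 : σ1 * (ff τ g (q + 1) x / Φ) * (N : ℝ) ^ (q + 1) =
      (N : ℝ) ^ (q + 1) * |ff τ g (q + 1) x| / Φ := by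
    rw [← hs1 x hx]
    ring
  rw [h3]
  refine ⟨?_, ?_, ?_⟩
  · rw [le_div_iff₀ hΦ]
    exact hlow x hx
  · rw [div_le_iff₀ hΦ]
    exact hup x hx
  · rw [← mul_div_assoc, hs2 x hx]
    positivity

theorem sum_Ioc_range (f : ℕ → ℂ) (a L : ℕ) :
    ∑ n ∈ Ioc a (a + L), f n = ∑ n ∈ range L, f (a + 1 + n) := by
  induction L with
  | zero => simp
  | succ L ih =>
    rw [← add_assoc, Finset.sum_Ioc_succ_top (by omega), ih, Finset.sum_range_succ]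
    congr 2
    omega

theorem norm_er (τ x : ℝ) : ‖er τ x‖ = 1 := by
  unfold er
  rw [Complex.norm_exp_ofReal_mul_I]

theorem er_one (Φ F : ℝ) (hΦ : Φ ≠ 0) : er 1 F = er Φ (F / Φ) := by
  unfold er
  rw [one_mul, mul_div_cancel₀ _ hΦ]

theorem asm {J : ℕ} (h3 : S_SPL) (N N' q : ℕ) (τ Φ c ρ D : ℝ) (g : Fin J → ℝ) (hN : 1 ≤ N)
    (hNN' : N ≤ N') (hN' : N' ≤ 2 * N) (hΦ : 0 < Φ)
    (hτ : |τ| ≤ Φ) (hg : ∀ i, |g i| / (N : ℝ) ^ ((i : ℕ) + 1) ≤ Φ) (hc : 0 < c) (hρ : 0 < ρ)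
    (hρ1 : ρ ≤ 1 / 4) (s1 s2 : Finset ℝ) (hs1 : s1.card ≤ J) (hs2 : s2.card ≤ J)
    (h1 : ∀ y ∈ Set.Icc (1 / 2 : ℝ) 1, (∀ r ∈ s1, ρ ≤ |y - r|) →
      c * ρ ^ J * Φ ≤ |∑ i : Fin (J + 1), co τ g N q i * y ^ (i : ℕ)|)
    (h2 : ∀ y ∈ Set.Icc (1 / 2 : ℝ) 1, (∀ r ∈ s2, ρ ≤ |y - r|) →
      c * ρ ^ J * Φ ≤ |∑ i : Fin (J + 1), co τ g N (q + 1) i * y ^ (i : ℕ)|)
    (hD : 0 ≤ D)
    (hVD : ∀ (L : ℕ) (u σ1 σ2 : ℝ), (N : ℝ) ≤ u → u + L ≤ 2 * N → |σ1| = 1 → |σ2| = 1 →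
      (∀ x ∈ Set.Icc u (u + L),
        c / 2 ^ (q + 1) * ρ ^ J ≤ σ1 * (ff τ g (q + 1) x / Φ) * (N : ℝ) ^ (q + 1) ∧
        σ1 * (ff τ g (q + 1) x / Φ) * (N : ℝ) ^ (q + 1) ≤
          ((J : ℝ) + 1) * ((J + q + 1).factorial : ℝ) ∧
        0 ≤ σ2 * (ff τ g (q + 2) x / Φ)) →
      ‖∑ n ∈ range L, er Φ (ff τ g 0 (u + n) / Φ)‖ ≤ D) :
    ‖∑ n ∈ Ioc N N', er 1 (τ * Real.log n + ∑ i, g i / (n : ℝ) ^ ((i : ℕ) + 1))‖ ≤
      (2 * J + 1) * (D + 1) + 2 * J * (2 * (8 * ρ * N) + 2) := by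
  classical
  have hN1 : (1 : ℝ) ≤ N := by exact_mod_cast hN
  have hspl := h3 (fun n => er 1 (τ * Real.log n + ∑ i, g i / (n : ℝ) ^ ((i : ℕ) + 1)))
    ((s1 ∪ s2).image (fun r => N / r)) (8 * ρ * N) (D + 1) (fun n => (norm_er _ _).le)
    (by positivity) (by linarith) N N' hNN' (by
      intro A' B' hA hAB hB hav
      rcases Nat.eq_or_lt_of_le hAB with h | h
      · rw [h, Finset.Ioc_self, Finset.sum_empty, norm_zero]
        linarith
      · obtain ⟨L, rfl⟩ : ∃ L, B' = A' + L + 1 := ⟨B' - A' - 1, by omega⟩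
        rw [Finset.sum_Ioc_succ_top (by omega), sum_Ioc_range]
        have hu : (N : ℝ) ≤ (A' : ℝ) + 1 := by
          have : (N : ℝ) ≤ A' := by exact_mod_cast hA
          linarith
        have huL : (A' : ℝ) + 1 + L ≤ 2 * N := by
          have h4 : A' + 1 + L ≤ 2 * N := by omega
          exact_mod_cast h4
        obtain ⟨σ1, σ2, hσ1, hσ2, hσ⟩ := piece_hyp q N τ Φ c ρ g hN hΦ hτ hg hc hρ hρ1 s1 s2 h1 h2
          ((A' : ℝ) + 1) ((A' : ℝ) + 1 + L) hu (by linarith [Nat.cast_nonneg (α := ℝ) L]) huL (by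
            intro x hx r hr
            refine hav x ⟨hx.1, ?_⟩ _ (mem_image_of_mem _ hr)
            push_cast
            linarith [hx.2])
        have h5 := hVD L ((A' : ℝ) + 1) σ1 σ2 hu huL hσ1 hσ2 hσ
        have h6 : ∑ n ∈ range L, er 1 (τ * Real.log ((A' + 1 + n : ℕ) : ℝ) +
            ∑ i, g i / ((A' + 1 + n : ℕ) : ℝ) ^ ((i : ℕ) + 1)) =
            ∑ n ∈ range L, er Φ (ff τ g 0 ((A' : ℝ) + 1 + n) / Φ) := by
          refine Finset.sum_congr rfl fun n _ => ?_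
          rw [← ff_zero, ← er_one _ _ hΦ.ne']
          push_cast
          rfl
        rw [h6]
        refine (norm_add_le _ _).trans (add_le_add h5 (norm_er _ _).le))
  refine hspl.trans ?_
  have hcard : (((s1 ∪ s2).image (fun r => (N : ℝ) / r)).card : ℝ) ≤ 2 * J := by
    have h4 : ((s1 ∪ s2).image (fun r => (N : ℝ) / r)).card ≤ 2 * J :=
      (card_image_le.trans (card_union_le _ _)).trans (by omega)
    exact_mod_cast h4
  have h7 : 0 ≤ 2 * (8 * ρ * N) + 2 := by positivity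
  have h8 : 0 ≤ D + 1 := by linarith
  exact add_le_add (mul_le_mul_of_nonneg_right (by linarith) h8)
    (mul_le_mul_of_nonneg_right hcard h7)

theorem log_pow_bound (E : ℕ) (δ : ℝ) (hδ : 0 < δ) :
    ∃ C : ℝ, 0 < C ∧ ∀ N : ℕ, 1 ≤ N → (Real.log N) ^ E ≤ C * (N : ℝ) ^ δ := by
  obtain ⟨ε, hε⟩ : ∃ ε : ℝ, ε = δ / (E + 1) := ⟨_, rfl⟩
  have hε0 : 0 < ε := by rw [hε]; positivity
  refine ⟨(1 / ε) ^ E, by positivity, fun N hN => ?_⟩
  have hN1 : (1 : ℝ) ≤ N := by exact_mod_cast hN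
  have h1 := Real.log_le_rpow_div (x := N) (by linarith) hε0
  have h2 : 0 ≤ Real.log N := Real.log_nonneg hN1
  have h3 := pow_le_pow_left₀ h2 h1 E
  have h4 : ((N : ℝ) ^ ε / ε) ^ E = (1 / ε) ^ E * (N : ℝ) ^ (ε * E) := by
    rw [Real.rpow_mul_natCast (by linarith), ← mul_pow]
    congr 1
    ring
  have h5 : (N : ℝ) ^ (ε * E) ≤ (N : ℝ) ^ δ := by
    refine Real.rpow_le_rpow_of_exponent_le hN1 ?_
    rw [hε, div_mul_eq_mul_div, div_le_iff₀ (by positivity)]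
    nlinarith
  rw [h4] at h3
  exact h3.trans (mul_le_mul_of_nonneg_left h5 (by positivity))

theorem exists_max {J : ℕ} (τ : ℝ) (g : Fin J → ℝ) (N : ℕ) : ∃ Φ : ℝ, |τ| ≤ Φ ∧
    (∀ i, |g i| / (N : ℝ) ^ ((i : ℕ) + 1) ≤ Φ) ∧
    (Φ ≤ |τ| ∨ ∃ i, Φ ≤ |g i| / (N : ℝ) ^ ((i : ℕ) + 1)) := by
  obtain ⟨v, hv⟩ : ∃ v : Fin (J + 1) → ℝ, v = Fin.cons |τ|
    (fun i : Fin J => |g i| / (N : ℝ) ^ ((i : ℕ) + 1)) := ⟨_, rfl⟩
  obtain ⟨i0, h0⟩ := Finite.exists_max v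
  refine ⟨v i0, ?_, ?_, ?_⟩
  · have := h0 0
    rw [hv, Fin.cons_zero] at this
    rw [hv]; exact this
  · intro i
    have := h0 i.succ
    rw [hv, Fin.cons_succ] at this
    rw [hv]; exact this
  · revert h0
    refine Fin.cases ?_ (fun i => ?_) i0
    · intro _
      left
      rw [hv, Fin.cons_zero]
    · intro _
      right
      exact ⟨i, by rw [hv, Fin.cons_succ]⟩

/-- **S/BL.** -/
theorem bl (h1 : S_VD) (h2 : S_PV) (h3 : S_SPL) : S_BL := by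
  intro J A K
  obtain ⟨c', hc', hPV⟩ := h2 J
  obtain ⟨c, hcdef⟩ : ∃ c : ℝ, c = min c' 1 := ⟨_, rfl⟩
  have hc : 0 < c := by rw [hcdef]; exact lt_min hc' one_pos
  have hc1 : c ≤ 1 := by rw [hcdef]; exact min_le_right _ _
  have hcc : c ≤ c' := by rw [hcdef]; exact min_le_left _ _
  obtain ⟨C1, hC1, hV1⟩ := h1 0
  obtain ⟨C2, hC2, hV2⟩ := h1 (A + 1)
  obtain ⟨δ, hδ⟩ : ∃ δ : ℝ, δ = 1 / ((((A + 1 : ℕ) : ℝ) + 2) * 2 ^ (A + 1)) := ⟨_, rfl⟩
  have hδ0 : 0 < δ := by rw [hδ]; positivity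
  have hδ1 : δ ≤ 1 := by
    rw [hδ, div_le_one (by positivity)]
    have h4 : (1 : ℝ) ≤ 2 ^ (A + 1) := one_le_pow₀ (by norm_num)
    have h5 : (1 : ℝ) ≤ ((A + 1 : ℕ) : ℝ) + 2 := by
      have := Nat.cast_nonneg (α := ℝ) (A + 1)
      linarith
    exact one_le_mul_of_one_le_of_one_le h5 h4
  obtain ⟨C3, hC3, hlog⟩ := log_pow_bound (K * J + K) δ hδ0
  obtain ⟨Ca, hCa⟩ : ∃ Ca : ℕ, Ca = (J + 1) * (J + 0 + 1).factorial := ⟨_, rfl⟩
  obtain ⟨Cb, hCb⟩ : ∃ Cb : ℕ, Cb = (J + 1) * (J + (A + 1) + 1).factorial := ⟨_, rfl⟩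
  have hCa1 : (1 : ℝ) ≤ Ca := by
    have : 1 ≤ Ca := by rw [hCa]; exact Nat.mul_pos (by omega) (Nat.factorial_pos _)
    exact_mod_cast this
  have hCb1 : (1 : ℝ) ≤ Cb := by
    have : 1 ≤ Cb := by rw [hCb]; exact Nat.mul_pos (by omega) (Nat.factorial_pos _)
    exact_mod_cast this
  obtain ⟨D1, hD1⟩ : ∃ D1 : ℝ, D1 = C1 * 2 * 4 ^ J / c := ⟨_, rfl⟩
  obtain ⟨D2, hD2⟩ : ∃ D2 : ℝ, D2 = C2 * Cb * 2 ^ (A + 1 + 1) * 4 ^ J / c * C3 := ⟨_, rfl⟩
  have hD10 : 0 < D1 := by rw [hD1]; positivity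
  have hD20 : 0 < D2 := by rw [hD2]; positivity
  obtain ⟨N0, hN0⟩ : ∃ N0 : ℕ, N0 = 3 + Ca ^ 2 := ⟨_, rfl⟩
  have hlogN0 : 0 < Real.log N0 := by
    apply Real.log_pos
    have : 1 < N0 := by omega
    exact_mod_cast this
  obtain ⟨CC, hCC⟩ : ∃ CC : ℝ, CC = (2 * J + 1) * (D1 + D2 + C3) + 2 * J * (4 + 2 * C3) := ⟨_, rfl⟩
  have hCC0 : 0 < CC := by rw [hCC]; positivity
  refine ⟨K * J + K, (Real.log N0) ^ K + CC, by positivity, ?_⟩
  intro N N' τ g hN hNN' hN' hτA hgA hbig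
  have hN1 : (1 : ℝ) ≤ N := by
    have : 1 ≤ N := by omega
    exact_mod_cast this
  have hNpos : (0 : ℝ) < N := by linarith
  have hl0 : 0 < Real.log N := by
    apply Real.log_pos
    have : 1 < N := by omega
    exact_mod_cast this
  rcases lt_or_ge N N0 with hsm | hlg
  · have htriv : ‖∑ n ∈ Ioc N N', er 1 (τ * Real.log n + ∑ i, g i / (n : ℝ) ^ ((i : ℕ) + 1))‖ ≤ N := by
      refine (norm_sum_le _ _).trans ?_
      simp only [norm_er]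
      rw [Finset.sum_const, Nat.card_Ioc, nsmul_eq_mul, mul_one]
      have : N' - N ≤ N := by omega
      exact_mod_cast this
    refine htriv.trans ?_
    rw [le_div_iff₀ (by positivity)]
    have h4 : Real.log N ^ K ≤ Real.log N0 ^ K := by
      refine pow_le_pow_left₀ hl0.le ?_ K
      exact Real.log_le_log hNpos (by exact_mod_cast hsm.le)
    nlinarith
  -- large `N`
  obtain ⟨l, hl⟩ : ∃ l, l = Real.log N := ⟨_, rfl⟩
  have hl1 : 1 ≤ l := by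
    rw [hl, Real.le_log_iff_exp_le hNpos]
    have h4 := Real.exp_one_lt_d9
    have h5 : (3 : ℝ) ≤ N := by
      have : 3 ≤ N := by omega
      exact_mod_cast this
    linarith
  rw [← hl] at hbig ⊢
  have hlogN := hlog N (by omega)
  rw [← hl] at hlogN
  have hsq : (Ca : ℝ) ≤ √(N : ℝ) := by
    apply Real.le_sqrt_of_sq_le
    have : Ca ^ 2 ≤ N := by omega
    exact_mod_cast this
  clear hlg hN0 hlogN0 hlog hl0
  obtain ⟨Φ, hΦτ, hΦg, hatt⟩ := exists_max τ g N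
  have hlE : 0 < l ^ (K * J + K) := by positivity
  have hΦE : l ^ (K * J + K) ≤ Φ := by
    rcases hbig with h4 | ⟨i, h4⟩
    · exact h4.trans hΦτ
    · exact h4.trans (hΦg i)
  have hΦ0 : 0 < Φ := lt_of_lt_of_le hlE hΦE
  have hΦA : Φ ≤ (N : ℝ) ^ A := by
    rcases hatt with h4 | ⟨i, h4⟩
    · exact h4.trans hτA
    · exact h4.trans (hgA i)
  obtain ⟨ρ, hρd⟩ : ∃ ρ : ℝ, ρ = 1 / (4 * l ^ K) := ⟨_, rfl⟩
  have hlK : 1 ≤ l ^ K := one_le_pow₀ hl1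
  have hρ : 0 < ρ := by rw [hρd]; positivity
  have hρ1 : ρ ≤ 1 / 4 := by
    rw [hρd, div_le_div_iff₀ (by positivity) (by norm_num)]
    linarith
  have hPV' : ∀ m, ∃ s : Finset ℝ, s.card ≤ J ∧ ∀ y ∈ Set.Icc (1 / 2 : ℝ) 1,
      (∀ r ∈ s, ρ ≤ |y - r|) →
      c * ρ ^ J * Φ ≤ |∑ i : Fin (J + 1), co τ g N m i * y ^ (i : ℕ)| := by
    intro m
    obtain ⟨s, hs, hs2⟩ := hPV (co τ g N m) Φ hΦ0.le (co_lower τ g N m Φ hatt)
    refine ⟨s, hs, fun y hy hr => ?_⟩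
    refine le_trans ?_ (hs2 ρ hρ (by linarith) y hy hr)
    have h4 : 0 < ρ ^ J := by positivity
    exact mul_le_mul_of_nonneg_right (mul_le_mul_of_nonneg_right hcc h4.le) hΦ0.le
  have hW : 0 < N / l ^ K := by positivity
  have h1W : 1 ≤ C3 * (N / l ^ K) := by
    rw [mul_div_assoc', le_div_iff₀ (by positivity), one_mul]
    have h4 : l ^ K ≤ l ^ (K * J + K) := pow_le_pow_right₀ hl1 (by omega)
    have h5 : (N : ℝ) ^ δ ≤ N := by
      calc (N : ℝ) ^ δ ≤ (N : ℝ) ^ (1 : ℝ) := Real.rpow_le_rpow_of_exponent_le hN1 hδ1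
        _ = N := Real.rpow_one _
    exact h4.trans (hlogN.trans (mul_le_mul_of_nonneg_left h5 hC3.le))
  -- the final estimate
  have hfin : ∀ q : ℕ, (∀ (L : ℕ) (u σ1 σ2 : ℝ), (N : ℝ) ≤ u → u + L ≤ 2 * N → |σ1| = 1 → |σ2| = 1 →
      (∀ x ∈ Set.Icc u (u + L),
        c / 2 ^ (q + 1) * ρ ^ J ≤ σ1 * (ff τ g (q + 1) x / Φ) * (N : ℝ) ^ (q + 1) ∧
        σ1 * (ff τ g (q + 1) x / Φ) * (N : ℝ) ^ (q + 1) ≤
          ((J : ℝ) + 1) * ((J + q + 1).factorial : ℝ) ∧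
        0 ≤ σ2 * (ff τ g (q + 2) x / Φ)) →
      ‖∑ n ∈ range L, er Φ (ff τ g 0 (u + n) / Φ)‖ ≤ (D1 + D2) * (N / l ^ K)) →
      ‖∑ n ∈ Ioc N N', er 1 (τ * Real.log n + ∑ i, g i / (n : ℝ) ^ ((i : ℕ) + 1))‖ ≤
        (Real.log N0 ^ K + CC) * N / l ^ K := by
    intro q hq
    obtain ⟨s1, hs1, hs1'⟩ := hPV' q
    obtain ⟨s2, hs2, hs2'⟩ := hPV' (q + 1)
    have h4 := asm h3 N N' q τ Φ c ρ ((D1 + D2) * (N / l ^ K)) g (by omega) hNN' hN' hΦ0 hΦτ hΦg hc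
      hρ hρ1 s1 s2 hs1 hs2 hs1' hs2' (by positivity) hq
    refine h4.trans ?_
    have h5 : 2 * (8 * ρ * N) + 2 ≤ (4 + 2 * C3) * (N / l ^ K) := by
      have h6 : 2 * (8 * ρ * N) = 4 * (N / l ^ K) := by
        rw [hρd]
        field_simp
        norm_num
      rw [h6]
      linarith
    have h7 : (D1 + D2) * (N / l ^ K) + 1 ≤ (D1 + D2 + C3) * (N / l ^ K) := by linarith
    have h8 : (2 * (J : ℝ) + 1) * ((D1 + D2) * (N / l ^ K) + 1) +
        2 * J * (2 * (8 * ρ * N) + 2) ≤ CC * (N / l ^ K) := by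
      rw [hCC]
      have h9 := mul_le_mul_of_nonneg_left h7 (by positivity : (0 : ℝ) ≤ 2 * J + 1)
      have h10 := mul_le_mul_of_nonneg_left h5 (by positivity : (0 : ℝ) ≤ 2 * (J : ℝ))
      linarith
    refine h8.trans ?_
    rw [mul_div_assoc]
    refine mul_le_mul_of_nonneg_right ?_ hW.le
    have h11 : 0 ≤ Real.log N0 ^ K := pow_nonneg (Real.log_natCast_nonneg _) _
    linarith
  have hρJ : ρ ^ J * (4 ^ J * l ^ (K * J)) = 1 := by
    rw [hρd, pow_mul, ← mul_pow, ← mul_pow, one_div_mul_cancel (by positivity), one_pow]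
  have hρJ0 : 0 < ρ ^ J := by positivity
  have hρJ1 : ρ ^ J ≤ 1 := pow_le_one₀ hρ.le (by linarith)
  have hder : ∀ (m : ℕ) (u b : ℝ), (N : ℝ) ≤ u → ∀ x ∈ Set.Icc u b,
      HasDerivAt (fun x => ff τ g m x / Φ) (ff τ g (m + 1) x / Φ) x := by
    intro m u b hu x hx
    have hx0 : x ≠ 0 := by
      have := hx.1
      intro h0
      linarith
    exact (hasDerivAt_ff τ g m hx0).div_const Φ
  rcases le_or_gt Φ (√(N : ℝ)) with hcase | hcase
  · -- small phases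
    refine hfin 0 fun L u σ1 σ2 hu huL hσ1 hσ2 hσ => ?_
    have h4 := (hV1 N L u Φ (c / 2 ^ (0 + 1) * ρ ^ J) Ca σ1 σ2 (fun m x => ff τ g m x / Φ)
      (by omega) hu (by linarith) (by positivity) ?_ hCa1 hσ1 hσ2
      (fun m _ x hx => hder m u _ hu x hx) ?_).1 rfl hΦ0 ?_
    · refine h4.trans ?_
      have h5 : C1 * N / (Φ * (c / 2 ^ (0 + 1) * ρ ^ J)) ≤ D1 * (N / l ^ K) := by
        rw [div_le_iff₀ (by positivity)]
        have h6 : D1 * (N / l ^ K) * (Φ * (c / 2 ^ (0 + 1) * ρ ^ J)) =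
            C1 * N * (Φ * (4 ^ J * ρ ^ J) / l ^ K) := by
          rw [hD1]
          field_simp
          norm_num
        rw [h6]
        have h7 : 1 ≤ Φ * (4 ^ J * ρ ^ J) / l ^ K := by
          rw [le_div_iff₀ (by positivity), one_mul]
          have h8 : l ^ K = l ^ (K * J + K) * (4 ^ J * ρ ^ J) := by
            rw [pow_add]
            calc l ^ K = (ρ ^ J * (4 ^ J * l ^ (K * J))) * l ^ K := by rw [hρJ, one_mul]
              _ = _ := by ring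
          rw [h8]
          exact mul_le_mul_of_nonneg_right hΦE (by positivity)
        have h9 : 0 ≤ C1 * N := by positivity
        nlinarith
      refine h5.trans ?_
      refine mul_le_mul_of_nonneg_right ?_ hW.le
      linarith
    · rw [zero_add, pow_one]
      nlinarith
    · intro x hx
      have h5 := hσ x hx
      rw [hCa]
      push_cast
      push_cast at h5
      exact h5
    · have h5 := mul_le_mul hcase hsq (by positivity) (Real.sqrt_nonneg _)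
      rw [Real.mul_self_sqrt hNpos.le] at h5
      exact h5
  · -- large phases
    refine hfin (A + 1) fun L u σ1 σ2 hu huL hσ1 hσ2 hσ => ?_
    have h4 := (hV2 N L u Φ (c / 2 ^ (A + 1 + 1) * ρ ^ J) Cb σ1 σ2 (fun m x => ff τ g m x / Φ)
      (by omega) hu (by linarith) (by positivity) ?_ hCb1 hσ1 hσ2
      (fun m _ x hx => hder m u _ hu x hx) ?_).2 (by omega) hcase.le ?_
    · refine h4.trans ?_
      rw [← hδ]
      have h5 : C2 * (Cb / (c / 2 ^ (A + 1 + 1) * ρ ^ J)) * (N : ℝ) ^ (1 - δ) ≤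
          D2 * (N / l ^ K) := by
        have h6 : (N : ℝ) ^ (1 - δ) * (N : ℝ) ^ δ = N := by
          rw [← Real.rpow_add hNpos, sub_add_cancel, Real.rpow_one]
        have h7 : C2 * (Cb / (c / 2 ^ (A + 1 + 1) * ρ ^ J)) =
            C2 * Cb * 2 ^ (A + 1 + 1) * 4 ^ J / c * l ^ (K * J) := by
          have h8 : (1 : ℝ) / ρ ^ J = 4 ^ J * l ^ (K * J) := by
            rw [div_eq_iff hρJ0.ne', mul_comm]
            exact hρJ.symm
          calc C2 * (Cb / (c / 2 ^ (A + 1 + 1) * ρ ^ J)) =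
              C2 * Cb * 2 ^ (A + 1 + 1) / c * (1 / ρ ^ J) := by field_simp
            _ = _ := by rw [h8]; ring
        rw [h7, hD2, mul_div_assoc', le_div_iff₀ (by positivity)]
        have h9 : 0 ≤ C2 * Cb * 2 ^ (A + 1 + 1) * 4 ^ J / c := by positivity
        have h10 : l ^ (K * J) * (N : ℝ) ^ (1 - δ) * l ^ K ≤ C3 * N := by
          calc l ^ (K * J) * (N : ℝ) ^ (1 - δ) * l ^ K = l ^ (K * J + K) * (N : ℝ) ^ (1 - δ) := by
                rw [pow_add]; ring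
            _ ≤ (C3 * (N : ℝ) ^ δ) * (N : ℝ) ^ (1 - δ) :=
                mul_le_mul_of_nonneg_right hlogN (by positivity)
            _ = C3 * ((N : ℝ) ^ (1 - δ) * (N : ℝ) ^ δ) := by ring
            _ = _ := by rw [h6]
        have h11 := mul_le_mul_of_nonneg_left h10 h9
        calc C2 * Cb * 2 ^ (A + 1 + 1) * 4 ^ J / c * l ^ (K * J) * (N : ℝ) ^ (1 - δ) * l ^ K =
            C2 * Cb * 2 ^ (A + 1 + 1) * 4 ^ J / c * (l ^ (K * J) * (N : ℝ) ^ (1 - δ) * l ^ K) := by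
              ring
          _ ≤ C2 * Cb * 2 ^ (A + 1 + 1) * 4 ^ J / c * (C3 * N) := h11
          _ = _ := by ring
      refine h5.trans ?_
      refine mul_le_mul_of_nonneg_right ?_ hW.le
      linarith
    · have h5 : (1 : ℝ) ≤ 2 ^ (A + 1 + 1) := one_le_pow₀ (by norm_num)
      have h6 : c / 2 ^ (A + 1 + 1) ≤ 1 := by
        rw [div_le_one (by positivity)]
        linarith
      have h7 : 0 ≤ c / 2 ^ (A + 1 + 1) := by positivity
      nlinarith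
    · intro x hx
      have h5 := hσ x hx
      rw [hCb]
      push_cast
      push_cast at h5
      exact h5
    · exact hΦA.trans (pow_le_pow_right₀ hN1 (by omega))

end Pool.Agent.N768.S
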